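import Mathlib

set_option autoImplicit false

namespace Pool.Agent.Results.MP_332034_al.NoSuchLattice

universe u v w

theorem result (L : Type u) [Lattice L] (D : Type v) [DivisionRing D] (V : Type w)
    [AddCommGroup V] [Module D V] (f : LatticeHom L (Submodule D V))
    (hf : Function.Injective f) :
    ∃ (F : Type v) (_ : Field F) (W : Type w) (_ : AddCommGroup W) (_ : Module F W)
      (g : LatticeHom L (Submodule F W)), Function.Injective g := by
  let F := Subring.center D
  let r : LatticeHom (Submodule D V) (Submodule F V) :=
    { toFun := fun S => S.restrictScalars F
      map_sup' := fun S T => by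
        ext x
        simp only [Submodule.restrictScalars_mem, Submodule.mem_sup]
      map_inf' := fun S T => rfl }
  exact ⟨F, inferInstance, V, inferInstance, inferInstance, r.comp f,
    (Submodule.restrictScalars_injective F D V).comp hf⟩

end Pool.Agent.Results.MP_332034_al.NoSuchLattice
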